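import Pool.Agent.H36.FrameFinal

open Set Metric Filter Topology
open scoped ContDiff RealInnerProductSpace

namespace Pool.Agent.Results.MP_873223_gt.FramesForceNormals

/-- A frame: the image `l` of a smooth immersion of the circle into space, given as a smooth
`2π`-periodic map of the line with nowhere vanishing derivative. -/
def IsFrame (l : Set (EuclideanSpace ℝ (Fin 3))) : Prop :=
  ∃ h : ℝ → EuclideanSpace ℝ (Fin 3), ContDiff ℝ ∞ h ∧
    (∀ t, h (t + 2 * Real.pi) = h t) ∧ (∀ t, deriv h t ≠ 0) ∧ range h = l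

/-- `H` is a membrane spanned by `l`: it is smooth on the closed unit disk, its differential is
injective at every point of the closed disk, and it maps the boundary circle onto `l`. -/
structure IsMembrane (l : Set (EuclideanSpace ℝ (Fin 3)))
    (H : EuclideanSpace ℝ (Fin 2) → EuclideanSpace ℝ (Fin 3)) : Prop where
  smooth : ContDiffOn ℝ ∞ H (closedBall 0 1)
  immersion : ∀ x ∈ closedBall (0 : EuclideanSpace ℝ (Fin 2)) 1,
    Function.Injective (fderivWithin ℝ H (closedBall 0 1) x)
  boundary : H '' sphere 0 1 = l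

/-- The normal line of the membrane `H` at `H x`: the orthogonal complement of the tangent
plane `dH_x(ℝ²)`. -/
noncomputable def normalLine (H : EuclideanSpace ℝ (Fin 2) → EuclideanSpace ℝ (Fin 3))
    (x : EuclideanSpace ℝ (Fin 2)) : Submodule ℝ (EuclideanSpace ℝ (Fin 3)) :=
  (LinearMap.range
    (fderivWithin ℝ H (closedBall 0 1) x :
      EuclideanSpace ℝ (Fin 2) →ₗ[ℝ] EuclideanSpace ℝ (Fin 3)))ᗮ

/-- The membrane `H` realizes `ξ` as a normal direction: at some point of the closed disk the
normal line contains `ξ`. -/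
def Realizes (H : EuclideanSpace ℝ (Fin 2) → EuclideanSpace ℝ (Fin 3))
    (ξ : EuclideanSpace ℝ (Fin 3)) : Prop :=
  ∃ x ∈ closedBall (0 : EuclideanSpace ℝ (Fin 2)) 1, ξ ∈ normalLine H x

/-- For all nonzero vectors `ξ 0, …, ξ (k-1)` of space there is a frame such that every membrane
spanned by it realizes each of them as a normal direction. -/
theorem result (k : ℕ) (ξ : Fin k → EuclideanSpace ℝ (Fin 3)) (hξ : ∀ i, ξ i ≠ 0) :
    ∃ l : Set (EuclideanSpace ℝ (Fin 3)), IsFrame l ∧
      ∀ H : EuclideanSpace ℝ (Fin 2) → EuclideanSpace ℝ (Fin 3), IsMembrane l H →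
        ∀ i, Realizes H (ξ i) := by
  obtain ⟨c, hc⟩ := H36.exists_plane ξ hξ
  choose a α ha hA hB using fun i => H36.exists_polar (hc i)
  obtain ⟨p, hp, hper, hpos, hα⟩ := H36.exists_support α
  set e := H36.ve c
  set f := H36.vf
  have hef : LinearIndependent ℝ ![e, f] := H36.ve_vf_indep c
  refine ⟨range (H36.curve e f p), ⟨fun t => H36.curve e f p (2 * t), ?_, ?_, ?_, ?_⟩, ?_⟩
  · exact (H36.contDiff_curve e f hp).comp (by fun_prop)
  · intro t
    have : 2 * (t + 2 * Real.pi) = 2 * t + 4 * Real.pi := by ring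
    simp only [this]
    exact H36.curve_periodic e f hper _
  · intro t
    have h1 : HasDerivAt (fun t : ℝ => 2 * t) 2 t := by
      simpa using (hasDerivAt_id t).const_mul (2 : ℝ)
    have h2 := (H36.hasDerivAt_curve e f hp (2 * t)).scomp t h1
    have h3 : deriv (fun t => H36.curve e f p (2 * t)) t =
        (2 : ℝ) • ((p (2 * t) + deriv (deriv p) (2 * t)) • H36.tt e f (2 * t)) := h2.deriv
    rw [h3]
    exact smul_ne_zero two_ne_zero
      (smul_ne_zero (hpos _).ne' (H36.tt_ne_zero e f hef _))
  · ext q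
    constructor
    · rintro ⟨t, rfl⟩
      exact ⟨2 * t, rfl⟩
    · rintro ⟨t, rfl⟩
      exact ⟨t / 2, by simp only [mul_div_cancel₀ t (two_ne_zero (α := ℝ))]⟩
  · intro H hH i
    obtain ⟨x, hx, hx0⟩ := H36.curve_normal hef hp hper hpos (ha i) (hA i) (hB i) (hα i).1
      (hα i).2 hH.smooth hH.immersion hH.boundary
    refine ⟨x, hx, ?_⟩
    rw [normalLine, Submodule.mem_orthogonal]
    rintro _ ⟨v, rfl⟩
    rw [real_inner_comm]
    exact hx0 v

end Pool.Agent.Results.MP_873223_gt.FramesForceNormals
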